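import Pool.Agent.U919.GE.Mat

/-!
# Examples of rings with a degree function: monoid rings and polynomial rings
-/

set_option autoImplicit false

namespace Pool.Agent.U919.GE

open Polynomial

section poly

variable (R : Type) [Ring R] [IsDomain R]

theorem degreeOver_poly : DegreeOver (Polynomial.C : R →+* R[X]) Polynomial.constantCoeff
    Polynomial.natDegree where
  nontrivial := one_ne_zero
  mul_ne := fun _ _ ha hb => mul_ne_zero ha hb
  mul := fun _ _ ha hb => Polynomial.natDegree_mul ha hb
  add := fun a b => Polynomial.natDegree_add_le a b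
  zero_iff := fun s => Polynomial.natDegree_eq_zero
  ret := fun r => by simp

end poly

section mv

variable (R σ : Type) [CommRing R] [IsDomain R]

theorem degreeOver_mv : DegreeOver (MvPolynomial.C : R →+* MvPolynomial σ R)
    MvPolynomial.constantCoeff MvPolynomial.totalDegree where
  nontrivial := one_ne_zero
  mul_ne := fun _ _ ha hb => mul_ne_zero ha hb
  mul := fun _ _ ha hb => MvPolynomial.totalDegree_mul_of_isDomain ha hb
  add := fun a b => MvPolynomial.totalDegree_add a b
  zero_iff := fun s => ⟨fun h => ⟨_, (MvPolynomial.totalDegree_eq_zero_iff_eq_C.1 h).symm⟩, by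
    rintro ⟨r, rfl⟩
    exact MvPolynomial.totalDegree_C r⟩
  ret := fun r => by simp

end mv

section monoid

variable (R M : Type) [Ring R] [IsDomain R] [Monoid M] [UniqueProds M] (l : M → ℕ)

/-- a length function on the monoid `M`: additive, and zero only at `1` -/
structure Length {M : Type} [Monoid M] (l : M → ℕ) : Prop where
  mul : ∀ a b, l (a * b) = l a + l b
  eq_one : ∀ a, l a = 0 → a = 1

variable {M l}

theorem Length.one (hl : Length l) : l 1 = 0 := by
  have h := hl.mul 1 1
  rw [mul_one] at h
  omega

/-- the augmentation of a monoid ring with a length function at the elements of positive length -/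
noncomputable def augM (hl : Length l) : MonoidAlgebra R M →+* R where
  toFun x := x.coeff 1
  map_one' := by simp [MonoidAlgebra.one_def]
  map_zero' := by simp
  map_add' := fun x y => by simp
  map_mul' := fun x y => by
    classical
    have hU : UniqueMul x.coeff.support y.coeff.support 1 1 := by
      intro a b _ _ hab
      have h1 := congrArg l hab
      rw [hl.mul, hl.mul, hl.one] at h1
      exact ⟨hl.eq_one a (by omega), hl.eq_one b (by omega)⟩
    have h := MonoidAlgebra.coeff_mul_mul_of_uniqueMul hU
    rwa [mul_one] at h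

/-- the degree function of a monoid ring -/
noncomputable def degM (l : M → ℕ) (x : MonoidAlgebra R M) : ℕ := x.coeff.support.sup l

theorem degreeOver_monoid (hl : Length l) :
    DegreeOver (MonoidAlgebra.singleOneRingHom : R →+* MonoidAlgebra R M) (augM R hl)
      (degM R l) where
  nontrivial := by
    intro h
    have h1 := congrArg (fun x : MonoidAlgebra R M => x.coeff 1) h
    simp [MonoidAlgebra.one_def] at h1
  mul_ne := fun a b ha hb => mul_ne_zero ha hb
  mul := by
    classical
    intro a b ha hb
    have hsa : a.coeff.support.Nonempty := by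
      rw [Finsupp.support_nonempty_iff]
      intro h
      exact ha (MonoidAlgebra.coeff_injective h)
    have hsb : b.coeff.support.Nonempty := by
      rw [Finsupp.support_nonempty_iff]
      intro h
      exact hb (MonoidAlgebra.coeff_injective h)
    set A := a.coeff.support.filter fun m => l m = degM R l a with hA
    set B := b.coeff.support.filter fun m => l m = degM R l b with hB
    have hAn : A.Nonempty := by
      obtain ⟨m, hm, h1⟩ := Finset.exists_mem_eq_sup _ hsa l
      exact ⟨m, Finset.mem_filter.2 ⟨hm, h1.symm⟩⟩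
    have hBn : B.Nonempty := by
      obtain ⟨m, hm, h1⟩ := Finset.exists_mem_eq_sup _ hsb l
      exact ⟨m, Finset.mem_filter.2 ⟨hm, h1.symm⟩⟩
    obtain ⟨a0, ha0, b0, hb0, hu⟩ := UniqueProds.uniqueMul_of_nonempty hAn hBn
    have ha0' := Finset.mem_filter.1 ha0
    have hb0' := Finset.mem_filter.1 hb0
    have hU : UniqueMul a.coeff.support b.coeff.support a0 b0 := by
      intro m n hm hn hmn
      have h1 := congrArg l hmn
      rw [hl.mul, hl.mul, ha0'.2, hb0'.2] at h1
      have h2 : l m ≤ degM R l a := Finset.le_sup hm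
      have h3 : l n ≤ degM R l b := Finset.le_sup hn
      exact hu (Finset.mem_filter.2 ⟨hm, by omega⟩) (Finset.mem_filter.2 ⟨hn, by omega⟩) hmn
    have h1 := MonoidAlgebra.coeff_mul_mul_of_uniqueMul hU
    apply le_antisymm
    · apply Finset.sup_le
      intro m hm
      have h2 : ∃ x ∈ a.coeff.support, ∃ y ∈ b.coeff.support, x * y = m := by
        by_contra hcon
        push Not at hcon
        apply Finsupp.mem_support_iff.1 hm
        rw [MonoidAlgebra.coeff_mul]
        apply Finset.sum_eq_zero
        intro x hx
        apply Finset.sum_eq_zero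
        intro y hy
        exact if_neg (hcon x hx y hy)
      obtain ⟨x, hx, y, hy, rfl⟩ := h2
      rw [hl.mul]
      exact add_le_add (Finset.le_sup hx) (Finset.le_sup hy)
    · have h2 : (a * b).coeff (a0 * b0) ≠ 0 := by
        rw [h1]
        exact mul_ne_zero (Finsupp.mem_support_iff.1 ha0'.1) (Finsupp.mem_support_iff.1 hb0'.1)
      have h3 : l (a0 * b0) ≤ degM R l (a * b) := Finset.le_sup (Finsupp.mem_support_iff.2 h2)
      rwa [hl.mul, ha0'.2, hb0'.2] at h3
  add := by
    classical
    intro a b
    apply Finset.sup_le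
    intro m hm
    have h1 : m ∈ a.coeff.support ∨ m ∈ b.coeff.support := by
      by_contra hcon
      push Not at hcon
      apply Finsupp.mem_support_iff.1 hm
      rw [MonoidAlgebra.coeff_add, Finsupp.add_apply, Finsupp.notMem_support_iff.1 hcon.1,
        Finsupp.notMem_support_iff.1 hcon.2, add_zero]
    rcases h1 with h1 | h1
    · exact (Finset.le_sup (f := l) h1).trans (le_max_left _ _)
    · exact (Finset.le_sup (f := l) h1).trans (le_max_right _ _)
  zero_iff := by
    classical
    intro s
    constructor
    · intro h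
      refine ⟨s.coeff 1, ?_⟩
      apply MonoidAlgebra.coeff_injective
      ext m
      by_cases hm : m = 1
      · rw [hm]
        simp [MonoidAlgebra.singleOneRingHom]
      · have h1 : s.coeff m = 0 := by
          by_contra h0
          have h2 : l m ≤ degM R l s := Finset.le_sup (Finsupp.mem_support_iff.2 h0)
          exact hm (hl.eq_one m (by omega))
        rw [h1]
        simp [MonoidAlgebra.singleOneRingHom, Ne.symm hm]
    · rintro ⟨r, rfl⟩
      apply Nat.eq_zero_of_le_zero
      apply Finset.sup_le
      intro m hm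
      by_cases h : m = 1
      · rw [h, hl.one]
      · exfalso
        apply Finsupp.mem_support_iff.1 hm
        simp [MonoidAlgebra.singleOneRingHom, Ne.symm h]
  ret := fun r => by
    show (MonoidAlgebra.single 1 r : MonoidAlgebra R M).coeff 1 = r
    simp

end monoid

theorem length_free (X : Type) : Length (FreeMonoid.length : FreeMonoid X → ℕ) :=
  ⟨fun a b => FreeMonoid.length_mul a b, fun a h => FreeMonoid.length_eq_zero.1 h⟩

theorem degreeOver_free (R X : Type) [CommRing R] [IsDomain R] :
    DegreeOver (algebraMap R (FreeAlgebra R X)) (FreeAlgebra.algebraMapInv : _ →ₐ[R] R).toRingHom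
      (fun s => degM R (FreeMonoid.length : FreeMonoid X → ℕ)
        (FreeAlgebra.equivMonoidAlgebraFreeMonoid s)) where
  nontrivial := one_ne_zero
  mul_ne := fun a b ha hb => mul_ne_zero ha hb
  mul := fun a b ha hb => by
    beta_reduce
    rw [map_mul]
    exact (degreeOver_monoid R (length_free X)).mul _ _ (by simpa using ha) (by simpa using hb)
  add := fun a b => by
    beta_reduce
    rw [map_add]
    exact (degreeOver_monoid R (length_free X)).add _ _
  zero_iff := fun s => by
    rw [(degreeOver_monoid R (length_free X)).zero_iff]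
    have key : ∀ r : R, (FreeAlgebra.equivMonoidAlgebraFreeMonoid : FreeAlgebra R X ≃ₐ[R] _)
        (algebraMap R (FreeAlgebra R X) r) = MonoidAlgebra.singleOneRingHom r := by
      intro r
      rw [AlgEquiv.commutes]
      rfl
    constructor
    · rintro ⟨r, hr⟩
      refine ⟨r, ?_⟩
      apply (FreeAlgebra.equivMonoidAlgebraFreeMonoid : FreeAlgebra R X ≃ₐ[R] _).injective
      rw [key, hr]
    · rintro ⟨r, rfl⟩
      exact ⟨r, (key r).symm⟩
  ret := fun r => FreeAlgebra.algebraMap_leftInverse r

section vals

variable {S : Type} [Ring S]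

theorem dgl_v0 (g : G2 S) (u v : Sˣ) (i : Fin 2) : (g * dgl u v).val i 0 = g.val i 0 * u := by
  rw [DegreeOver.mul_val]
  simp [dgl]

theorem dgl_v1 (g : G2 S) (u v : Sˣ) (i : Fin 2) : (g * dgl u v).val i 1 = g.val i 1 * v := by
  rw [DegreeOver.mul_val]
  simp [dgl]

theorem up_v0 (g : G2 S) (s : S) (i : Fin 2) : (g * up s).val i 0 = g.val i 0 := by
  rw [DegreeOver.mul_val]
  simp [up]

theorem up_v1 (g : G2 S) (s : S) (i : Fin 2) :
    (g * up s).val i 1 = g.val i 0 * s + g.val i 1 := by
  rw [DegreeOver.mul_val]
  simp [up]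

theorem wl_v0 (g : G2 S) (i : Fin 2) : (g * wl).val i 0 = - g.val i 1 := by
  rw [DegreeOver.mul_val, wl_val]
  simp

theorem wl_v1 (g : G2 S) (i : Fin 2) : (g * wl).val i 1 = g.val i 0 := by
  rw [DegreeOver.mul_val, wl_val]
  simp

end vals

section eucl

variable (D : Type) [DivisionRing D]

/-- over a division ring, all invertible matrices over the polynomial ring are products of
elementary and diagonal ones -/
theorem GE2_poly_top : GE2 D[X] = ⊤ := by
  classical
  have hup : ∀ s, up s ∈ GE2 D[X] := fun s => E2_le_GE2 (up_mem_E2 s)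
  have hlow : ∀ s, low s ∈ GE2 D[X] := fun s => E2_le_GE2 (low_mem_E2 s)
  have hw : (wl : G2 D[X]) ∈ GE2 D[X] := wl_mem _ (hup _) (hlow _)
  have hd : ∀ u v, dgl u v ∈ GE2 D[X] := fun u v => Subgroup.subset_closure (Or.inr ⟨(u, v), rfl⟩)
  have h := degreeOver_poly D
  rw [eq_top_iff]
  rintro g -
  obtain ⟨n, hn⟩ : ∃ n : ℕ, (g.val 1 0).degree < n := by
    refine ⟨(g.val 1 0).natDegree + 1, ?_⟩
    exact lt_of_le_of_lt Polynomial.degree_le_natDegree (by exact_mod_cast Nat.lt_succ_self _)
  induction n generalizing g with
  | zero =>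
    have h0 : g.val 1 0 = 0 := by
      rw [← Polynomial.degree_eq_bot]
      by_contra hne
      have h1 := Polynomial.degree_eq_natDegree (fun hz => hne (Polynomial.degree_eq_bot.2 hz))
      rw [h1] at hn
      exact absurd hn (by simp)
    obtain ⟨h1, h2, h3, h4, h5⟩ := h.inv_tri h0
    have e : g = dgl ⟨g.val 0 0, g.inv 0 0, h3, h2⟩ ⟨g.val 1 1, g.inv 1 1, h4, h5⟩ *
        up (g.inv 0 0 * g.val 0 1) := by
      apply Units.ext
      ext1 i k
      change g.val i k = (dgl _ _ * up _ : G2 D[X]).val i k
      rw [DegreeOver.mul_val]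
      fin_cases i <;> fin_cases k
      · simp [dgl, up]
      · show g.val 0 1 = g.val 0 0 * (g.inv 0 0 * g.val 0 1) + 0 * 1
        rw [← mul_assoc, h3, one_mul, zero_mul, add_zero]
      · simp [dgl, up, h0]
      · simp [dgl, up]
    rw [e]
    exact mul_mem (hd _ _) (hup _)
  | succ n ih =>
    by_cases h0 : g.val 1 0 = 0
    · exact ih (by rw [h0, Polynomial.degree_zero]; exact WithBot.bot_lt_coe n)
    · set c := g.val 1 0 with hc
      have hl : c.leadingCoeff ≠ 0 := Polynomial.leadingCoeff_ne_zero.2 h0
      have hlu : C c.leadingCoeff * C c.leadingCoeff⁻¹ = (1 : D[X]) := by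
        rw [← C_mul, mul_inv_cancel₀ hl, C_1]
      have hlu' : C c.leadingCoeff⁻¹ * C c.leadingCoeff = (1 : D[X]) := by
        rw [← C_mul, inv_mul_cancel₀ hl, C_1]
      let u : D[X]ˣ := ⟨C c.leadingCoeff⁻¹, C c.leadingCoeff, hlu', hlu⟩
      have hmon : (c * C c.leadingCoeff⁻¹).Monic := Polynomial.monic_mul_leadingCoeff_inv h0
      set m := c * C c.leadingCoeff⁻¹ with hm
      set e : D[X] := g.val 1 1 with he
      have hgoal : g * dgl u 1 * up (-(e /ₘ m)) * wl ∈ GE2 D[X] := by
        apply ih
        have e2 := Polynomial.modByMonic_add_div e m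
        have e1 : (g * dgl u 1 * up (-(e /ₘ m)) * wl).val 1 0 = -(e %ₘ m) := by
          rw [wl_v0, up_v1, dgl_v0, dgl_v1, Units.val_one, mul_one, ← hc, ← he]
          change -(m * -(e /ₘ m) + e) = -(e %ₘ m)
          rw [neg_inj]
          nth_rewrite 2 [← e2]
          rw [mul_neg]
          abel
        rw [e1, Polynomial.degree_neg]
        have h1 := Polynomial.degree_modByMonic_lt e hmon
        have h2 : m.degree = c.degree := by
          rw [hm, Polynomial.degree_mul, Polynomial.degree_C (inv_ne_zero hl), add_zero]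
        rw [h2] at h1
        have h3 : c.degree ≤ n := by
          have h4 := Polynomial.degree_eq_natDegree h0
          rw [h4] at hn ⊢
          have h5 : c.natDegree < n + 1 := by exact_mod_cast hn
          exact_mod_cast Nat.lt_succ_iff.1 h5
        exact lt_of_lt_of_le h1 h3
      have h6 : g = g * dgl u 1 * up (-(e /ₘ m)) * wl * wl⁻¹ * (up (-(e /ₘ m)))⁻¹ *
          (dgl u 1)⁻¹ := by group
      rw [h6]
      exact mul_mem (mul_mem (mul_mem hgoal (inv_mem hw)) (inv_mem (hup _))) (inv_mem (hd _ _))

/-- over a division ring, all invertible matrices are products of elementary and diagonal ones -/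
theorem GE2_div_top : GE2 D = ⊤ := by
  rw [eq_top_iff]
  rintro g -
  have hup : ∀ s, up s ∈ GE2 D := fun s => E2_le_GE2 (up_mem_E2 s)
  have hlow : ∀ s, low s ∈ GE2 D := fun s => E2_le_GE2 (low_mem_E2 s)
  have hw : (wl : G2 D) ∈ GE2 D := wl_mem _ (hup _) (hlow _)
  have h := degreeOver_poly D
  have h1 : mp (C : D →+* D[X]) g ∈ GE2 D[X] := by
    rw [GE2_poly_top]
    exact Subgroup.mem_top _
  have h2 : mp (Polynomial.constantCoeff : D[X] →+* D) (mp (C : D →+* D[X]) g) ∈ GE2 D :=
    mp_GE2 _ ⟨_, h1, rfl⟩
  have h3 : mp (Polynomial.constantCoeff : D[X] →+* D) (mp (C : D →+* D[X]) g) = g := by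
    apply Units.ext
    ext i k
    change (mp _ (mp _ g)).val i k = g.val i k
    rw [mp_apply, mp_apply]
    simp
  rwa [h3] at h2

end eucl

end Pool.Agent.U919.GE
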