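import Pool.Agent.U919.GE.Main
import Pool.Agent.U919.GE.Ex
import Pool.Agent.Helper418_IRS.IR15
import Pool.Agent.Y179.SS.Free

/-!
# The integers
-/

set_option autoImplicit false

namespace Pool.Agent.U919.GE

open Pool.Agent.Y462.SS (Closed)
open scoped MatrixGroups

variable {C : ∀ (G : Type) [Group G], Prop}

theorem C_SL (hC : Closed C) : C SL(2, ℤ) := by
  obtain ⟨f, hf, hfi⟩ := Helper418IRS.sanov_range_fi
  refine hC.finiteIndex _ f.range hfi ?_
  have h1 := Pool.Agent.Y179.SS.t_free C hC (Fin 2)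
  exact hC.of_injective _ _ (MonoidHom.ofInjective hf).symm.toMonoidHom
    (MonoidHom.ofInjective hf).symm.injective h1

theorem C_G2_int (hC : Closed C) : C (G2 ℤ) := by
  have h1 : C SL(2, ℤ) := C_SL hC
  -- the kernel of the determinant has index at most two
  have h2 : (Matrix.GeneralLinearGroup.det : GL (Fin 2) ℤ →* ℤˣ).ker.FiniteIndex :=
    Subgroup.finiteIndex_ker _
  refine hC.finiteIndex _ (Matrix.GeneralLinearGroup.det : GL (Fin 2) ℤ →* ℤˣ).ker h2 ?_
  let f : ↥((Matrix.GeneralLinearGroup.det : GL (Fin 2) ℤ →* ℤˣ).ker) →* SL(2, ℤ) :=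
    { toFun := fun x => ⟨x.1.val, by
        have := x.2
        rw [MonoidHom.mem_ker] at this
        have h3 := congrArg Units.val this
        simpa using h3⟩
      map_one' := rfl
      map_mul' := fun x y => rfl }
  refine hC.of_injective _ _ f ?_ h1
  intro x y hxy
  apply Subtype.ext
  apply Units.ext
  exact congrArg Subtype.val hxy

theorem C_E2_int (hC : Closed C) : C ↥(E2 ℤ) :=
  hC.of_injective _ _ (E2 ℤ).subtype (E2 ℤ).subtype_injective (C_G2_int hC)

theorem C_GE2_int (hC : Closed C) : C ↥(GE2 ℤ) :=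
  hC.of_injective _ _ (GE2 ℤ).subtype (GE2 ℤ).subtype_injective (C_G2_int hC)

end Pool.Agent.U919.GE
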