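import Pool.Agent.U919.GE.Tree

/-!
# Invertible matrices of size two over rings with a degree function
-/

set_option autoImplicit false

namespace Pool.Agent.U919.GE

section defs

variable (R : Type) [Ring R]

/-- the group of the invertible `2 × 2` matrices over `R` -/
abbrev G2 : Type := (Matrix (Fin 2) (Fin 2) R)ˣ

variable {R}

/-- the matrix `(1 s; 0 1)` -/
def up (s : R) : G2 R where
  val := !![1, s; 0, 1]
  inv := !![1, -s; 0, 1]
  val_inv := by
    ext i j; fin_cases i <;> fin_cases j <;> simp [Matrix.mul_apply, Fin.sum_univ_two]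
  inv_val := by
    ext i j; fin_cases i <;> fin_cases j <;> simp [Matrix.mul_apply, Fin.sum_univ_two]

/-- the matrix `(1 0; s 1)` -/
def low (s : R) : G2 R where
  val := !![1, 0; s, 1]
  inv := !![1, 0; -s, 1]
  val_inv := by
    ext i j; fin_cases i <;> fin_cases j <;> simp [Matrix.mul_apply, Fin.sum_univ_two]
  inv_val := by
    ext i j; fin_cases i <;> fin_cases j <;> simp [Matrix.mul_apply, Fin.sum_univ_two]

/-- the matrix `(u 0; 0 v)` -/
def dgl (u v : Rˣ) : G2 R where
  val := !![(u : R), 0; 0, (v : R)]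
  inv := !![(u⁻¹ : Rˣ).val, 0; 0, (v⁻¹ : Rˣ).val]
  val_inv := by
    ext i j; fin_cases i <;> fin_cases j <;> simp [Matrix.mul_apply, Fin.sum_univ_two]
  inv_val := by
    ext i j; fin_cases i <;> fin_cases j <;> simp [Matrix.mul_apply, Fin.sum_univ_two]

variable (R)

/-- the group generated by the elementary matrices -/
def E2 : Subgroup (G2 R) := Subgroup.closure (Set.range up ∪ Set.range low)

/-- the group generated by the elementary and the invertible diagonal matrices -/
def GE2 : Subgroup (G2 R) :=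
  Subgroup.closure (Set.range up ∪ Set.range low ∪ Set.range fun p : Rˣ × Rˣ => dgl p.1 p.2)

/-- the group of the matrices `(1 s; 0 1)` -/
def U2 : Subgroup (G2 R) := Subgroup.closure (Set.range up)

end defs

section maps

variable {R S : Type} [Ring R] [Ring S]

/-- the homomorphism given by a homomorphism of rings -/
def mp (j : R →+* S) : G2 R →* G2 S := Units.map (j.mapMatrix : _ →+* _).toMonoidHom

theorem mp_apply (j : R →+* S) (g : G2 R) (i k : Fin 2) : (mp j g).val i k = j (g.val i k) := rfl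

theorem mp_up (j : R →+* S) (s : R) : mp j (up s) = up (j s) := by
  ext i k
  rw [mp_apply]
  fin_cases i <;> fin_cases k <;> simp [up]

theorem mp_low (j : R →+* S) (s : R) : mp j (low s) = low (j s) := by
  ext i k
  rw [mp_apply]
  fin_cases i <;> fin_cases k <;> simp [low]

theorem mp_dgl (j : R →+* S) (u v : Rˣ) :
    mp j (dgl u v) = dgl (Units.map j.toMonoidHom u) (Units.map j.toMonoidHom v) := by
  ext i k
  rw [mp_apply]
  fin_cases i <;> fin_cases k <;> simp [dgl]

theorem up_add (s t : R) : up (s + t) = up s * up t := by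
  ext i k
  rw [Units.val_mul]
  fin_cases i <;> fin_cases k <;> simp [up, Matrix.mul_apply, Fin.sum_univ_two, add_comm]

theorem up_zero : up (0 : R) = 1 := by
  ext i k
  fin_cases i <;> fin_cases k <;> simp [up]

theorem up_neg (s : R) : up (-s) = (up s)⁻¹ := by
  rw [eq_inv_iff_mul_eq_one, ← up_add, neg_add_cancel, up_zero]

/-- `(0 1; -1 0)` -/
def wl : G2 R := up 1 * low (-1) * up 1

theorem wl_val : (wl : G2 R).val = !![0, 1; -1, 0] := by
  unfold wl
  rw [Units.val_mul, Units.val_mul]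
  ext i k
  fin_cases i <;> fin_cases k <;>
    simp [up, low, Matrix.mul_apply, Fin.sum_univ_two]

theorem low_eq (s : R) : low s = wl⁻¹ * up (-s) * wl := by
  rw [mul_assoc, eq_inv_mul_iff_mul_eq]
  ext i k
  rw [Units.val_mul, Units.val_mul, wl_val]
  fin_cases i <;> fin_cases k <;>
    simp [up, low, Matrix.mul_apply, Fin.sum_univ_two]

theorem wl_mem (A : Subgroup (G2 R)) (h1 : up 1 ∈ A) (h2 : low (-1) ∈ A) : wl ∈ A :=
  mul_mem (mul_mem h1 h2) h1

theorem up_mem_E2 (s : R) : up s ∈ E2 R := Subgroup.subset_closure (Or.inl ⟨s, rfl⟩)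

theorem low_mem_E2 (s : R) : low s ∈ E2 R := Subgroup.subset_closure (Or.inr ⟨s, rfl⟩)

theorem E2_le_GE2 : E2 R ≤ GE2 R := Subgroup.closure_mono Set.subset_union_left

theorem mp_E2 (j : R →+* S) : (E2 R).map (mp j) ≤ E2 S := by
  rw [Subgroup.map_le_iff_le_comap, E2, Subgroup.closure_le]
  rintro _ (⟨s, rfl⟩ | ⟨s, rfl⟩)
  · show mp j (up s) ∈ E2 S
    rw [mp_up]
    exact up_mem_E2 _
  · show mp j (low s) ∈ E2 S
    rw [mp_low]
    exact low_mem_E2 _

theorem mp_GE2 (j : R →+* S) : (GE2 R).map (mp j) ≤ GE2 S := by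
  rw [Subgroup.map_le_iff_le_comap]
  conv_lhs => rw [GE2]
  rw [Subgroup.closure_le]
  rintro _ ((⟨s, rfl⟩ | ⟨s, rfl⟩) | ⟨⟨u, v⟩, rfl⟩)
  · show mp j (up s) ∈ GE2 S
    rw [mp_up]
    exact E2_le_GE2 (up_mem_E2 _)
  · show mp j (low s) ∈ GE2 S
    rw [mp_low]
    exact E2_le_GE2 (low_mem_E2 _)
  · show mp j (dgl u v) ∈ GE2 S
    rw [mp_dgl]
    exact Subgroup.subset_closure (Or.inr ⟨(_, _), rfl⟩)

theorem U2_mem (s : R) : up s ∈ U2 R := Subgroup.subset_closure ⟨s, rfl⟩

theorem mem_U2 {g : G2 R} (hg : g ∈ U2 R) : ∃ s, g = up s := by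
  induction hg using Subgroup.closure_induction with
  | mem x hx => obtain ⟨s, rfl⟩ := hx; exact ⟨s, rfl⟩
  | one => exact ⟨0, up_zero.symm⟩
  | mul x y _ _ hx hy =>
    obtain ⟨s, rfl⟩ := hx
    obtain ⟨t, rfl⟩ := hy
    exact ⟨s + t, (up_add s t).symm⟩
  | inv x _ hx =>
    obtain ⟨s, rfl⟩ := hx
    exact ⟨-s, (up_neg s).symm⟩

end maps

/-- `d` is a degree function on the ring `S`, `j` is an isomorphism of `R` onto the ring of the elements
of degree zero, and `ε` a retraction: `d (a b) = d a + d b` and `a b ≠ 0` for nonzero `a`, `b`,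
`d (a + b) ≤ max (d a) (d b)`, `d s = 0` if and only if `s` is in the image of `j`, and `ε (j r) = r`. -/
structure DegreeOver {R S : Type} [Ring R] [Ring S] (j : R →+* S) (ε : S →+* R) (d : S → ℕ) :
    Prop where
  nontrivial : (1 : S) ≠ 0
  mul_ne : ∀ a b : S, a ≠ 0 → b ≠ 0 → a * b ≠ 0
  mul : ∀ a b : S, a ≠ 0 → b ≠ 0 → d (a * b) = d a + d b
  add : ∀ a b : S, d (a + b) ≤ max (d a) (d b)
  zero_iff : ∀ s : S, d s = 0 ↔ ∃ r : R, j r = s
  ret : ∀ r : R, ε (j r) = r

namespace DegreeOver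

variable {R S : Type} [Ring R] [Ring S] {j : R →+* S} {ε : S →+* R} {d : S → ℕ}

theorem d_j (h : DegreeOver j ε d) (r : R) : d (j r) = 0 := (h.zero_iff _).2 ⟨r, rfl⟩

theorem d_zero (h : DegreeOver j ε d) : d 0 = 0 := (h.zero_iff 0).2 ⟨0, map_zero j⟩

theorem d_one (h : DegreeOver j ε d) : d 1 = 0 := (h.zero_iff 1).2 ⟨1, map_one j⟩

theorem d_neg (h : DegreeOver j ε d) (a : S) : d (-a) = d a := by
  by_cases ha : a = 0
  · rw [ha, neg_zero]
  · have h1 : d (-1 : S) = 0 := (h.zero_iff _).2 ⟨-1, by rw [map_neg, map_one]⟩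
    have h2 := h.mul (-1) a (neg_ne_zero.2 h.nontrivial) ha
    rw [neg_one_mul, h1, zero_add] at h2
    exact h2

theorem d_add_lt (h : DegreeOver j ε d) {a b : S} (hab : d a < d b) : d b ≤ d (a + b) := by
  have h1 := h.add (-a) (a + b)
  rw [neg_add_cancel_left, h.d_neg] at h1
  rcases le_max_iff.1 h1 with h2 | h2
  · omega
  · exact h2

theorem d_mul_le (h : DegreeOver j ε d) (a : S) {b : S} (hb : d b = 0) : d (a * b) ≤ d a := by
  by_cases ha : a = 0
  · rw [ha, zero_mul]
  · by_cases hb0 : b = 0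
    · rw [hb0, mul_zero, h.d_zero]
      exact Nat.zero_le _
    · rw [h.mul a b ha hb0, hb, add_zero]

theorem j_inj (h : DegreeOver j ε d) : Function.Injective j := fun a b hab => by
  rw [← h.ret a, hab, h.ret b]

theorem eq_zero (h : DegreeOver j ε d) {a b : S} (hab : a * b = 0) (hb : b ≠ 0) : a = 0 := by
  by_contra ha
  exact h.mul_ne a b ha hb hab

/-- the inverse of a triangular matrix is triangular -/
theorem inv_tri (h : DegreeOver j ε d) {g : G2 S} (hg : g.val 1 0 = 0) :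
    g.inv 1 0 = 0 ∧ g.inv 0 0 * g.val 0 0 = 1 ∧ g.val 0 0 * g.inv 0 0 = 1 ∧
      g.val 1 1 * g.inv 1 1 = 1 ∧ g.inv 1 1 * g.val 1 1 = 1 := by
  have e1 : ∀ i k, (g.inv * g.val) i k = (1 : Matrix (Fin 2) (Fin 2) S) i k := fun i k => by
    rw [g.inv_val]
  have e2 : ∀ i k, (g.val * g.inv) i k = (1 : Matrix (Fin 2) (Fin 2) S) i k := fun i k => by
    rw [g.val_inv]
  have a1 := e1 0 0
  have a2 := e1 1 0
  have a3 := e2 1 1
  have a4 := e1 1 1
  have a5 := e2 0 0
  rw [Matrix.mul_apply, Fin.sum_univ_two] at a1 a2 a3 a4 a5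
  simp only [hg, mul_zero, zero_mul, add_zero, zero_add, Matrix.one_apply_eq] at a1 a2 a3 a4 a5
  have h0 : g.val 0 0 ≠ 0 := by
    intro h0
    rw [h0, mul_zero] at a1
    exact h.nontrivial a1.symm
  have a2' : g.inv 1 0 * g.val 0 0 = 0 := by simpa using a2
  have h1 : g.inv 1 0 = 0 := h.eq_zero a2' h0
  rw [h1] at a4 a5
  simp only [zero_mul, mul_zero, zero_add, add_zero] at a4 a5
  exact ⟨h1, a1, a5, a3, a4⟩

/-- the level of the cosets of the first group -/
def lN (d : S → ℕ) (g : G2 S) : ℕ :=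
  max (max (d (g.val 0 0)) (d (g.val 1 0))) (max (d (g.val 0 1)) (d (g.val 1 1)))

/-- the level of the cosets of the second group -/
def lM (d : S → ℕ) (g : G2 S) : ℕ := max (d (g.val 0 0)) (d (g.val 1 0))

theorem le_lN (g : G2 S) (i k : Fin 2) : d (g.val i k) ≤ lN d g := by
  unfold lN
  fin_cases i <;> fin_cases k <;> simp

theorem lN_le {g : G2 S} {n : ℕ} (h : ∀ i k, d (g.val i k) ≤ n) : lN d g ≤ n := by
  unfold lN
  simp only [max_le_iff]
  exact ⟨⟨h 0 0, h 1 0⟩, h 0 1, h 1 1⟩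

theorem le_lM (g : G2 S) (i : Fin 2) : d (g.val i 0) ≤ lM d g := by
  unfold lM
  fin_cases i <;> simp

theorem lM_le {g : G2 S} {n : ℕ} (h : ∀ i, d (g.val i 0) ≤ n) : lM d g ≤ n := by
  unfold lM
  simp only [max_le_iff]
  exact ⟨h 0, h 1⟩

theorem mul_val (g h : G2 S) (i k : Fin 2) :
    (g * h).val i k = g.val i 0 * h.val 0 k + g.val i 1 * h.val 1 k := by
  rw [Units.val_mul, Matrix.mul_apply, Fin.sum_univ_two]

theorem lN_mul_le (h : DegreeOver j ε d) (g : G2 S) {a : G2 S} (ha : ∀ i k, d (a.val i k) = 0) :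
    lN d (g * a) ≤ lN d g := by
  apply lN_le
  intro i k
  rw [mul_val]
  refine (h.add _ _).trans (max_le ?_ ?_)
  · exact (h.d_mul_le _ (ha _ _)).trans (le_lN g i 0)
  · exact (h.d_mul_le _ (ha _ _)).trans (le_lN g i 1)

/-- a pair of subgroups -/
structure Pair (d : S → ℕ) (A B : Subgroup (G2 S)) : Prop where
  hA : ∀ a ∈ A, ∀ i k, d (a.val i k) = 0
  hAB : ∀ a ∈ A, a.val 1 0 = 0 → a ∈ B
  hB : ∀ b ∈ B, b.val 1 0 = 0 ∧ d (b.val 0 0) = 0 ∧ d (b.val 1 1) = 0
  hBA : ∀ b ∈ B, d (b.val 0 1) = 0 → b ∈ A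

theorem lvl (h : DegreeOver j ε d) {A B : Subgroup (G2 S)} (hp : Pair d A B) :
    Lvl A B (lN d) (lM d) := by
  have hcol : ∀ g : G2 S, g.val 0 0 = 0 → g.val 1 0 ≠ 0 := by
    intro g h0 h1
    have e1 : (g.inv * g.val) 0 0 = (1 : Matrix (Fin 2) (Fin 2) S) 0 0 := by rw [g.inv_val]
    rw [Matrix.mul_apply, Fin.sum_univ_two, h0, h1, mul_zero, mul_zero, add_zero,
      Matrix.one_apply_eq] at e1
    exact h.nontrivial e1.symm
  refine ⟨?_, ?_, ?_, ?_, ?_⟩
  · intro g a ha
    apply le_antisymm (h.lN_mul_le g (hp.hA a ha))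
    have h1 := h.lN_mul_le (g * a) (hp.hA _ (inv_mem ha))
    rwa [mul_inv_cancel_right] at h1
  · have key : ∀ g : G2 S, ∀ b ∈ B, lM d (g * b) ≤ lM d g := by
      intro g b hb
      apply lM_le
      intro i
      rw [mul_val, (hp.hB b hb).1, mul_zero, add_zero]
      exact (h.d_mul_le _ (hp.hB b hb).2.1).trans (le_lM g i)
    intro g b hb
    apply le_antisymm (key g b hb)
    have h1 := key (g * b) _ (inv_mem hb)
    rwa [mul_inv_cancel_right] at h1
  · intro g a ha h1 h2
    apply hp.hAB a ha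
    by_contra h0
    obtain ⟨i, hi⟩ : ∃ i, d (g.val i 1) = lN d g := by
      by_contra hcon
      push Not at hcon
      have h3 : lN d g ≤ lN d g - 1 := by
        apply lN_le
        intro i k
        have h4 : k = 0 ∨ k = 1 := by fin_cases k <;> simp
        rcases h4 with rfl | rfl
        · have := le_lM (d := d) g i
          omega
        · have h5 := le_lN (d := d) g i 1
          have h6 := hcon i
          omega
      omega
    have hgi : g.val i 1 ≠ 0 := by
      intro hz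
      rw [hz, h.d_zero] at hi
      omega
    have h3 : d (g.val i 1 * a.val 1 0) = lN d g := by
      rw [h.mul _ _ hgi h0, hp.hA a ha, add_zero, hi]
    have h4 : d (g.val i 0 * a.val 0 0) < d (g.val i 1 * a.val 1 0) := by
      rw [h3]
      exact lt_of_le_of_lt ((h.d_mul_le _ (hp.hA a ha 0 0)).trans (le_lM g i)) h1
    have h5 := h.d_add_lt h4
    have h6 := le_lM (d := d) (g * a) i
    rw [mul_val] at h6
    omega
  · intro g b hb h1 h2
    apply hp.hBA b hb
    by_contra h0
    obtain ⟨i, hi0, hi⟩ : ∃ i, g.val i 0 ≠ 0 ∧ d (g.val i 0) = lM d g := by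
      by_cases h00 : g.val 0 0 = 0
      · refine ⟨1, hcol g h00, ?_⟩
        unfold lM
        rw [h00, h.d_zero, Nat.zero_max]
      · by_cases h10 : g.val 1 0 = 0
        · refine ⟨0, h00, ?_⟩
          unfold lM
          rw [h10, h.d_zero, Nat.max_zero]
        · rcases le_total (d (g.val 0 0)) (d (g.val 1 0)) with hle | hle
          · exact ⟨1, h10, (max_eq_right hle).symm⟩
          · exact ⟨0, h00, (max_eq_left hle).symm⟩
    have hb0 : b.val 0 1 ≠ 0 := by
      intro hz
      rw [hz, h.d_zero] at h0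
      exact h0 rfl
    have h3 : d (g.val i 0 * b.val 0 1) = lM d g + d (b.val 0 1) := by
      rw [h.mul _ _ hi0 hb0, hi]
    have h4 : d (g.val i 1 * b.val 1 1) < d (g.val i 0 * b.val 0 1) := by
      rw [h3]
      have h5 := (h.d_mul_le (g.val i 1) (hp.hB b hb).2.2).trans (le_lN g i 1)
      omega
    have h5 := h.d_add_lt h4
    have h6 := le_lN (d := d) (g * b) i 1
    rw [mul_val, add_comm] at h6
    omega
  · intro a ha
    exact (lN_le fun i k => (hp.hA a ha i k).le).trans (Nat.zero_le _)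

end DegreeOver

end Pool.Agent.U919.GE
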