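import Pool.Agent.U919.GE.Mat
import Pool.Agent.Y110.FJ.Stm

/-!
# Statements on groups of `2 × 2` matrices over rings with a degree function and a retraction
-/

set_option autoImplicit false

namespace Pool.Agent.U919.GE.Law

open Pool.Agent.Y110.FJ (ClosedE)

/-- the class `C` has the closure properties of `ClosedE` and contains the metabelian groups -/
structure Cl (C : ∀ (G : Type) [Group G], Prop) : Prop where
  closed : ClosedE C
  metabelian : ∀ (G : Type) [Group G], derivedSeries G 2 = ⊥ → C G

/-- the group `A` of matrices over `R` is in the class `C` -/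
def InC (C : ∀ (G : Type) [Group G], Prop) {R : Type} [Ring R] (A : Subgroup (G2 R)) : Prop := C A

/-- the group generated by the image of `A` and all matrices `(1 s; 0 1)` over `S` -/
def gen {R S : Type} [Ring R] [Ring S] (j : R →+* S) (A : Subgroup (G2 R)) : Subgroup (G2 S) :=
  A.map (mp j) ⊔ U2 S

/-- the image of the group `H` under the homomorphism of the groups of matrices given by `ε` -/
def img {R S : Type} [Ring R] [Ring S] (ε : S →+* R) (H : Subgroup (G2 S)) : Subgroup (G2 R) :=
  H.map (mp ε)

/-- the group generated by `A` and all matrices `(1 r; 0 1)` -/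
def addU {R : Type} [Ring R] (A : Subgroup (G2 R)) : Subgroup (G2 R) := A ⊔ U2 R

/-- for a ring `S` with a degree function and a retraction `ε` onto the ring `R` of the elements of
degree zero: a group `H` of matrices over `S` contained in the group generated by `GL_2(R)` and all
`(1 s; 0 1)` is in `C` if its image under `ε` is -/
def Subgroups (C : ∀ (G : Type) [Group G], Prop) : Prop :=
  ∀ (R S : Type) [Ring R] [Ring S] (j : R →+* S) (ε : S →+* R) (d : S → ℕ), DegreeOver j ε d →
    ∀ H : Subgroup (G2 S), H ≤ gen j ⊤ → InC C (img ε H) → InC C H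

/-- such a group on which `ε` is trivial is in `C` -/
def Kernels (C : ∀ (G : Type) [Group G], Prop) : Prop :=
  ∀ (R S : Type) [Ring R] [Ring S] (j : R →+* S) (ε : S →+* R) (d : S → ℕ), DegreeOver j ε d →
    ∀ H : Subgroup (G2 S), H ≤ gen j ⊤ → (∀ g ∈ H, mp ε g = 1) → InC C H

/-- for every group `A` of matrices over `R`: the group generated by `A` and all `(1 r; 0 1)`, `r` in
`R`, is in `C` iff the group generated by `A` and all `(1 s; 0 1)`, `s` in `S`, is -/
def Extensions (C : ∀ (G : Type) [Group G], Prop) : Prop :=
  ∀ (R S : Type) [Ring R] [Ring S] (j : R →+* S) (ε : S →+* R) (d : S → ℕ), DegreeOver j ε d →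
    ∀ A : Subgroup (G2 R), InC C (addU A) ↔ InC C (gen j A)

/-- the group `E_2(R)` is in `C` iff `E_2(S)` is, and the group `GE_2(R)` is in `C` iff `GE_2(S)` is -/
def Same (C : ∀ (G : Type) [Group G], Prop) (R S : Type) [Ring R] [Ring S] : Prop :=
  (InC C (E2 R) ↔ InC C (E2 S)) ∧ (InC C (GE2 R) ↔ InC C (GE2 S))

/-- the groups `E_2` and `GE_2` -/
def Elementary (C : ∀ (G : Type) [Group G], Prop) : Prop :=
  ∀ (R S : Type) [Ring R] [Ring S] (j : R →+* S) (ε : S →+* R) (d : S → ℕ), DegreeOver j ε d →
    Same C R S

/-- a length function on a monoid: additive, and zero only at `1` -/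
structure Length {M : Type} [Monoid M] (l : M → ℕ) : Prop where
  mul : ∀ a b, l (a * b) = l a + l b
  eq_one : ∀ a, l a = 0 → a = 1

/-- monoid rings over domains, commutative or not, of monoids with unique products and a length
function; in particular the free rings -/
def MonoidRings (C : ∀ (G : Type) [Group G], Prop) : Prop :=
  (∀ (R M : Type) [Ring R] [IsDomain R] [Monoid M] [UniqueProds M] (l : M → ℕ), Length l →
    Same C R (MonoidAlgebra R M)) ∧
  ∀ (R X : Type) [Ring R] [IsDomain R], Same C R (MonoidAlgebra R (FreeMonoid X))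

/-- division rings `D`: the group `GL_2(D)` is in `C` iff `GL_2(D[x])` is, and a subgroup of
`GL_2(D[x])` is in `C` if its image under `x = 0` is -/
def DivisionRings (C : ∀ (G : Type) [Group G], Prop) : Prop :=
  ∀ (D : Type) [DivisionRing D], (C (G2 D) ↔ C (G2 (Polynomial D))) ∧
    ∀ H : Subgroup (G2 (Polynomial D)), InC C (img Polynomial.constantCoeff H) → InC C H

end Pool.Agent.U919.GE.Law
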