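import Pool.Agent.U919.GE.Mat
import Pool.Agent.N509.TK.Qt

/-!
# Groups of invertible matrices over rings with a degree function in the class of Farrell-Jones groups
-/

set_option autoImplicit false

namespace Pool.Agent.U919.GE

open SimpleGraph
open Pool.Agent.Y110.FJ (ClosedE)
open Pool.Agent.Y462.SS (Closed)

variable {C : ∀ (G : Type) [Group G], Prop}

theorem C_conj (hC : Closed C) {G : Type} [Group G] (x : G) {K L : Subgroup G}
    (h : ∀ g ∈ K, x⁻¹ * g * x ∈ L) (hL : C L) : C K := by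
  let f : K →* L :=
    { toFun := fun k => ⟨x⁻¹ * k * x, h k k.2⟩
      map_one' := by
        apply Subtype.ext
        simp
      map_mul' := fun a b => by
        apply Subtype.ext
        simp only [Subgroup.coe_mul]
        group }
  refine hC.of_injective _ _ f ?_ hL
  intro a b hab
  have h1 : x⁻¹ * (a : G) * x = x⁻¹ * (b : G) * x := congrArg Subtype.val hab
  apply Subtype.ext
  have h2 := mul_right_cancel h1
  exact mul_left_cancel h2

theorem metab {G P : Type} [Group G] [Group P] (f : G →* P) (K : Subgroup G)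
    (hK : ∀ x ∈ K, ∀ y ∈ K, f x = 1 → f y = 1 → x * y = y * x) {b : G} (hb : b ∈ K) :
    derivedSeries ↥((K ⊓ f.ker) ⊔ Subgroup.zpowers b) 2 = ⊥ := by
  set L : Subgroup G := (K ⊓ f.ker) ⊔ Subgroup.zpowers b with hL
  have hLK : L ≤ K := sup_le inf_le_left ((Subgroup.zpowers_le).2 hb)
  have hLf : L ≤ (Subgroup.zpowers (f b)).comap f := by
    refine sup_le ?_ ?_
    · intro x hx
      have h1 : f x = 1 := hx.2
      show f x ∈ Subgroup.zpowers (f b)
      rw [h1]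
      exact one_mem _
    · rw [Subgroup.zpowers_le]
      exact Subgroup.mem_zpowers _
  have hcomm : ∀ x y : L, f ((x : G) * y) = f ((y : G) * x) := by
    intro x y
    obtain ⟨m, hm⟩ := hLf x.2
    obtain ⟨n, hn⟩ := hLf y.2
    have hm' : f b ^ m = f (x : G) := hm
    have hn' : f b ^ n = f (y : G) := hn
    rw [map_mul, map_mul, ← hm', ← hn', ← zpow_add, ← zpow_add, add_comm]
  have h1 : derivedSeries L 1 ≤ (K ⊓ f.ker).subgroupOf L := by
    rw [derivedSeries_one, commutator_def, Subgroup.commutator_le]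
    intro x _ y _
    rw [Subgroup.mem_subgroupOf]
    refine ⟨hLK (Subtype.property _), ?_⟩
    have h2 := hcomm x y
    rw [commutatorElement_def]
    show f ((x : G) * y * (x : G)⁻¹ * (y : G)⁻¹) = 1
    rw [map_mul, map_mul, h2, map_mul, map_inv, map_inv]
    group
  rw [derivedSeries_succ, eq_bot_iff, Subgroup.commutator_le]
  intro x hx y hy
  rw [Subgroup.mem_bot, commutatorElement_eq_one_iff_mul_comm]
  have hx' := h1 hx
  have hy' := h1 hy
  rw [Subgroup.mem_subgroupOf] at hx' hy'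
  exact Subtype.ext (hK x hx'.1 y hy'.1 hx'.2 hy'.2)

section crit

variable {Γ : Type} [Group Γ] {A B : Subgroup Γ} {N M : Γ → ℕ}

theorem crit_levels (hC : ClosedE C) (hM : ∀ (G : Type) [Group G], derivedSeries G 2 = ⊥ → C G)
    (hl : Lvl A B N M) {P : Type} [Group P] (f : GG A B →* P) (hP : C P)
    (hA : ∀ x : GG A B, (x : Γ) ∈ A → f x = 1 → x = 1)
    (hB : ∀ x y : GG A B, (x : Γ) ∈ B → (y : Γ) ∈ B → f x = 1 → f y = 1 → x * y = y * x) :
    C (GG A B) := by
  have hcoset : ∀ (K : Subgroup Γ) (x y : GG A B), ((y * x : GG A B) : Γ)⁻¹ * (x : Γ) ∈ K →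
      ((x⁻¹ * y * x : GG A B) : Γ) ∈ K := by
    intro K x y h
    have h1 := inv_mem h
    have e : (((y * x : GG A B) : Γ)⁻¹ * (x : Γ))⁻¹ = ((x⁻¹ * y * x : GG A B) : Γ) := by
      simp only [Subgroup.coe_mul, Subgroup.coe_inv]
      group
    rwa [e] at h1
  have hsA : ∀ x y : GG A B, y • vA A B x = vA A B x → ((x⁻¹ * y * x : GG A B) : Γ) ∈ A := by
    intro x y h
    rw [smul_vA, vA_eq] at h
    exact hcoset A x y h
  have hsB : ∀ x y : GG A B, y • vB A B x = vB A B x → ((x⁻¹ * y * x : GG A B) : Γ) ∈ B := by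
    intro x y h
    rw [smul_vB, vB_eq] at h
    exact hcoset B x y h
  have hfc : ∀ x y : GG A B, f y = 1 → f (x⁻¹ * y * x) = 1 := by
    intro x y h
    rw [map_mul, map_mul, h, mul_one, ← map_mul, inv_mul_cancel, map_one]
  have hcancel : ∀ x y : GG A B, x⁻¹ * y * x = 1 → y = 1 := by
    intro x y h
    have h1 : y = x * (x⁻¹ * y * x) * x⁻¹ := by group
    rw [h1, h]
    group
  refine Pool.Agent.N509.TK.crit hC (tr_tree hl) (tr_smul (A := A) (B := B)) f hP ?_ ?_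
  · rintro u v ⟨x, ⟨rfl, rfl⟩ | ⟨rfl, rfl⟩⟩ y hu hv hy
    · exact hcancel x y (hA _ (hsA x y hu) (hfc x y hy))
    · exact hcancel x y (hA _ (hsA x y hv) (hfc x y hy))
  · intro v y hy
    rcases cases_v v with ⟨x, rfl⟩ | ⟨x, rfl⟩
    · refine C_conj hC.base x (L := Subgroup.zpowers (x⁻¹ * y * x)) ?_
        (Pool.Agent.R941.FJ.C_cyc hC.base _)
      intro g hg
      have h1 : (MulAction.stabilizer (GG A B) (vA A B x) ⊓ f.ker) ⊔ Subgroup.zpowers y ≤
          (Subgroup.zpowers (x⁻¹ * y * x)).comap (MulAut.conj x⁻¹).toMonoidHom := by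
        refine sup_le ?_ ?_
        · rintro z ⟨hz1, hz2⟩
          have h2 : z = 1 := hcancel x z (hA _ (hsA x z hz1) (hfc x z hz2))
          rw [h2]
          exact one_mem _
        · rw [Subgroup.zpowers_le, Subgroup.mem_comap]
          have e : (MulAut.conj x⁻¹).toMonoidHom y = x⁻¹ * y * x := by
            simp [MulAut.conj_apply]
          rw [e]
          exact Subgroup.mem_zpowers _
      have h2 := h1 hg
      rw [Subgroup.mem_comap] at h2
      have e : (MulAut.conj x⁻¹).toMonoidHom g = x⁻¹ * g * x := by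
        simp [MulAut.conj_apply]
      rwa [e] at h2
    · have hyB := hsB x y hy
      have hM' := hM _ (metab f (B.subgroupOf (A ⊔ B)) (fun a ha b hb h1 h2 =>
        hB a b (Subgroup.mem_subgroupOf.1 ha) (Subgroup.mem_subgroupOf.1 hb) h1 h2)
        (Subgroup.mem_subgroupOf.2 hyB))
      refine C_conj hC.base x ?_ hM'
      intro g hg
      have h1 : (MulAction.stabilizer (GG A B) (vB A B x) ⊓ f.ker) ⊔ Subgroup.zpowers y ≤
          ((B.subgroupOf (A ⊔ B) ⊓ f.ker) ⊔ Subgroup.zpowers (x⁻¹ * y * x)).comap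
            (MulAut.conj x⁻¹).toMonoidHom := by
        refine sup_le ?_ ?_
        · rintro z ⟨hz1, hz2⟩
          rw [Subgroup.mem_comap]
          have e : (MulAut.conj x⁻¹).toMonoidHom z = x⁻¹ * z * x := by
            simp [MulAut.conj_apply]
          rw [e]
          exact Subgroup.mem_sup_left ⟨Subgroup.mem_subgroupOf.2 (hsB x z hz1), hfc x z hz2⟩
        · rw [Subgroup.zpowers_le, Subgroup.mem_comap]
          have e : (MulAut.conj x⁻¹).toMonoidHom y = x⁻¹ * y * x := by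
            simp [MulAut.conj_apply]
          rw [e]
          exact Subgroup.mem_sup_right (Subgroup.mem_zpowers _)
      have h2 := h1 hg
      rw [Subgroup.mem_comap] at h2
      have e : (MulAut.conj x⁻¹).toMonoidHom g = x⁻¹ * g * x := by
        simp [MulAut.conj_apply]
      rwa [e] at h2

end crit

section main

open DegreeOver

variable {R S : Type} [Ring R] [Ring S] {j : R →+* S} {ε : S →+* R} {d : S → ℕ}

/-- triangular matrices with the diagonal of a triangular matrix in `A` -/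
def Bsub (h : DegreeOver j ε d) (A : Subgroup (G2 S)) : Subgroup (G2 S) where
  carrier := {g | g.val 1 0 = 0 ∧ ∃ a ∈ A, a.val 1 0 = 0 ∧ a.val 0 0 = g.val 0 0 ∧
    a.val 1 1 = g.val 1 1}
  one_mem' := ⟨by simp, 1, one_mem _, by simp, rfl, rfl⟩
  mul_mem' := by
    rintro g g' ⟨h1, a, ha, h2, h3, h4⟩ ⟨h1', a', ha', h2', h3', h4'⟩
    refine ⟨?_, a * a', mul_mem ha ha', ?_, ?_, ?_⟩
    · rw [mul_val, h1, h1', zero_mul, mul_zero, add_zero]
    · rw [mul_val, h2, h2', zero_mul, mul_zero, add_zero]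
    · rw [mul_val, mul_val, h2', h1', h3, h3', mul_zero, mul_zero]
    · rw [mul_val, mul_val, h2, h1, h4, h4', zero_mul, zero_mul]
  inv_mem' := by
    rintro g ⟨h1, a, ha, h2, h3, h4⟩
    obtain ⟨g1, g2, g3, g4, g5⟩ := h.inv_tri h1
    obtain ⟨a1, a2, a3, a4, a5⟩ := h.inv_tri h2
    refine ⟨g1, a⁻¹, inv_mem ha, a1, ?_, ?_⟩
    · show a.inv 0 0 = g.inv 0 0
      calc a.inv 0 0 = (g.inv 0 0 * g.val 0 0) * a.inv 0 0 := by rw [g2, one_mul]
        _ = g.inv 0 0 * (a.val 0 0 * a.inv 0 0) := by rw [mul_assoc, h3]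
        _ = g.inv 0 0 := by rw [a3, mul_one]
    · show a.inv 1 1 = g.inv 1 1
      calc a.inv 1 1 = a.inv 1 1 * (g.val 1 1 * g.inv 1 1) := by rw [g4, mul_one]
        _ = (a.inv 1 1 * a.val 1 1) * g.inv 1 1 := by rw [← mul_assoc, h4]
        _ = g.inv 1 1 := by rw [a5, one_mul]

theorem mem_Bsub {h : DegreeOver j ε d} {A : Subgroup (G2 S)} {g : G2 S} : g ∈ Bsub h A ↔
    g.val 1 0 = 0 ∧ ∃ a ∈ A, a.val 1 0 = 0 ∧ a.val 0 0 = g.val 0 0 ∧ a.val 1 1 = g.val 1 1 :=
  Iff.rfl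

/-- decomposition of triangular matrices -/
theorem Bsub_dec {h : DegreeOver j ε d} {A : Subgroup (G2 S)} {g : G2 S} (hg : g ∈ Bsub h A) :
    ∃ a ∈ A, a.val 1 0 = 0 ∧ a.val 0 0 = g.val 0 0 ∧ a.val 1 1 = g.val 1 1 ∧
      g = a * up (a.inv 0 0 * (g.val 0 1 - a.val 0 1)) := by
  obtain ⟨h1, a, ha, h2, h3, h4⟩ := mem_Bsub.1 hg
  obtain ⟨a1, a2, a3, a4, a5⟩ := h.inv_tri h2
  refine ⟨a, ha, h2, h3, h4, ?_⟩
  apply Units.ext
  ext i k
  have key : a.val 0 0 * (a.inv 0 0 * (g.val 0 1 - a.val 0 1)) = g.val 0 1 - a.val 0 1 := by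
    rw [← mul_assoc, a3, one_mul]
  change g.val i k = (a * up (a.inv 0 0 * (g.val 0 1 - a.val 0 1))).val i k
  rw [mul_val]
  fin_cases i <;> fin_cases k
  · simp [up, h3]
  · show g.val 0 1 = a.val 0 0 * (a.inv 0 0 * (g.val 0 1 - a.val 0 1)) + a.val 0 1 * 1
    rw [key, mul_one]
    abel
  · simp [up, h1, h2]
  · simp [up, h4, h2]

theorem pair (h : DegreeOver j ε d) (A₀ : Subgroup (G2 R)) (hU : ∀ r, up r ∈ A₀) :
    Pair d (A₀.map (mp j)) (Bsub h (A₀.map (mp j))) := by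
  refine ⟨?_, ?_, ?_, ?_⟩
  · rintro _ ⟨a, _, rfl⟩ i k
    rw [mp_apply]
    exact h.d_j _
  · intro a ha h0
    exact mem_Bsub.2 ⟨h0, a, ha, h0, rfl, rfl⟩
  · intro b hb
    obtain ⟨h1, a, ⟨a0, _, rfl⟩, h2, h3, h4⟩ := mem_Bsub.1 hb
    refine ⟨h1, ?_, ?_⟩
    · rw [← h3, mp_apply]
      exact h.d_j _
    · rw [← h4, mp_apply]
      exact h.d_j _
  · intro b hb h0
    obtain ⟨a, ⟨a0, ha0, rfl⟩, h2, h3, h4, h5⟩ := Bsub_dec hb
    rw [h5]
    refine mul_mem ⟨a0, ha0, rfl⟩ ?_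
    obtain ⟨r, hr⟩ := (h.zero_iff _).1 h0
    have e1 : (mp j a0).inv 0 0 = j ((a0⁻¹).val 0 0) := by
      show (mp j a0)⁻¹.val 0 0 = _
      rw [← map_inv, mp_apply]
    rw [← hr, e1, mp_apply, ← map_sub, ← map_mul, ← mp_up]
    exact ⟨_, hU _, rfl⟩

theorem sup_eq (h : DegreeOver j ε d) (A₀ : Subgroup (G2 R)) :
    A₀.map (mp j) ⊔ Bsub h (A₀.map (mp j)) = A₀.map (mp j) ⊔ U2 S := by
  apply le_antisymm
  · refine sup_le le_sup_left ?_
    intro b hb
    obtain ⟨a, ha, h2, h3, h4, h5⟩ := Bsub_dec hb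
    rw [h5]
    exact mul_mem (Subgroup.mem_sup_left ha) (Subgroup.mem_sup_right (U2_mem _))
  · refine sup_le le_sup_left ?_
    rw [U2, Subgroup.closure_le]
    rintro _ ⟨s, rfl⟩
    apply Subgroup.mem_sup_right
    exact mem_Bsub.2 ⟨rfl, 1, one_mem _, rfl, rfl, rfl⟩

theorem mp_mp (h : DegreeOver j ε d) (a : G2 R) : mp ε (mp j a) = a := by
  apply Units.ext
  ext i k
  change (mp ε (mp j a)).val i k = a.val i k
  rw [mp_apply, mp_apply, h.ret]

theorem ret_mem (h : DegreeOver j ε d) (A₀ : Subgroup (G2 R)) (hU : ∀ r, up r ∈ A₀) :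
    A₀.map (mp j) ⊔ Bsub h (A₀.map (mp j)) ≤ A₀.comap (mp ε) := by
  refine sup_le ?_ ?_
  · rintro _ ⟨a, ha, rfl⟩
    rw [Subgroup.mem_comap, mp_mp h]
    exact ha
  · intro b hb
    obtain ⟨a, ⟨a0, ha0, rfl⟩, h2, h3, h4, h5⟩ := Bsub_dec hb
    rw [h5, Subgroup.mem_comap, map_mul, mp_mp h, mp_up]
    exact mul_mem ha0 (hU _)

/-- **Main theorem**, general form. -/
theorem main (hC : ClosedE C) (hM : ∀ (G : Type) [Group G], derivedSeries G 2 = ⊥ → C G)
    (h : DegreeOver j ε d) (A₀ : Subgroup (G2 R)) (hU : ∀ r, up r ∈ A₀) (hA₀ : C A₀) :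
    C ↥(A₀.map (mp j) ⊔ U2 S) := by
  rw [← sup_eq h]
  let f : ↥(A₀.map (mp j) ⊔ Bsub h (A₀.map (mp j))) →* A₀ :=
    ((mp ε).comp (Subgroup.subtype _)).codRestrict A₀ fun x => ret_mem h A₀ hU x.2
  have hf : ∀ x, f x = 1 → mp ε (x : G2 S) = 1 := fun x hx => congrArg Subtype.val hx
  refine crit_levels hC hM (h.lvl (pair h A₀ hU)) f hA₀ ?_ ?_
  · rintro ⟨x, hx⟩ hxA h1
    obtain ⟨a, _, rfl⟩ := hxA
    have h2 := hf _ h1
    change mp ε (mp j a) = 1 at h2
    rw [mp_mp h] at h2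
    apply Subtype.ext
    show mp j a = 1
    rw [h2, map_one]
  · have key : ∀ x : GG (A₀.map (mp j)) (Bsub h (A₀.map (mp j))), (x : G2 S) ∈
        Bsub h (A₀.map (mp j)) → f x = 1 → ∃ s, (x : G2 S) = up s := by
      intro x hx h1
      have h2 := hf _ h1
      obtain ⟨a, ⟨a0, ha0, rfl⟩, h3, h4, h5, h6⟩ := Bsub_dec hx
      have e : ∀ i k, ε ((x : G2 S).val i k) = (1 : Matrix (Fin 2) (Fin 2) R) i k := by
        intro i k
        rw [← mp_apply ε, h2]
        rfl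
      have e0 := e 0 0
      have e1 := e 1 1
      rw [← h4, mp_apply, h.ret, Matrix.one_apply_eq] at e0
      rw [← h5, mp_apply, h.ret, Matrix.one_apply_eq] at e1
      rw [mp_apply, e0, map_one] at h4
      rw [mp_apply, e1, map_one] at h5
      have h7 : (x : G2 S).val 1 0 = 0 := (mem_Bsub.1 hx).1
      refine ⟨(x : G2 S).val 0 1, ?_⟩
      apply Units.ext
      ext i k
      fin_cases i <;> fin_cases k
      · exact h4.symm
      · rfl
      · exact h7
      · exact h5.symm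
    intro x y hx hy h1 h2
    obtain ⟨s, hs⟩ := key x hx h1
    obtain ⟨t, ht⟩ := key y hy h2
    apply Subtype.ext
    rw [Subgroup.coe_mul, Subgroup.coe_mul, hs, ht, ← up_add, ← up_add, add_comm]

theorem main_iff (hC : ClosedE C) (hM : ∀ (G : Type) [Group G], derivedSeries G 2 = ⊥ → C G)
    (h : DegreeOver j ε d) (A₀ : Subgroup (G2 R)) (hU : ∀ r, up r ∈ A₀) :
    C A₀ ↔ C ↥(A₀.map (mp j) ⊔ U2 S) := by
  refine ⟨main hC hM h A₀ hU, fun h1 => ?_⟩
  have hinj : Function.Injective (mp j) := fun a b hab => by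
    rw [← mp_mp h a, hab, mp_mp h b]
  let f : A₀ →* ↥(A₀.map (mp j) ⊔ U2 S) :=
    ((mp j).comp (Subgroup.subtype _)).codRestrict _ fun x =>
      Subgroup.mem_sup_left ⟨x.1, x.2, rfl⟩
  refine hC.base.of_injective _ _ f ?_ h1
  intro a b hab
  exact Subtype.ext (hinj (congrArg Subtype.val hab))

theorem E2_eq (j : R →+* S) : (E2 R).map (mp j) ⊔ U2 S = E2 S := by
  apply le_antisymm
  · refine sup_le (mp_E2 j) ?_
    rw [U2, Subgroup.closure_le]
    rintro _ ⟨s, rfl⟩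
    exact up_mem_E2 s
  · rw [E2, Subgroup.closure_le]
    have hup : ∀ s : S, up s ∈ (E2 R).map (mp j) ⊔ U2 S := fun s =>
      Subgroup.mem_sup_right (U2_mem s)
    have hw : (wl : G2 S) ∈ (E2 R).map (mp j) ⊔ U2 S := by
      refine wl_mem _ (hup 1) (Subgroup.mem_sup_left ⟨low (-1), low_mem_E2 _, ?_⟩)
      rw [mp_low, map_neg, map_one]
    rintro _ (⟨s, rfl⟩ | ⟨s, rfl⟩)
    · exact hup s
    · rw [SetLike.mem_coe, low_eq]
      exact mul_mem (mul_mem (inv_mem hw) (hup _)) hw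

theorem GE2_eq (h : DegreeOver j ε d) : (GE2 R).map (mp j) ⊔ U2 S = GE2 S := by
  apply le_antisymm
  · refine sup_le (mp_GE2 j) ?_
    rw [U2, Subgroup.closure_le]
    rintro _ ⟨s, rfl⟩
    exact E2_le_GE2 (up_mem_E2 s)
  · conv_lhs => rw [GE2]
    rw [Subgroup.closure_le]
    have hE : E2 S ≤ (GE2 R).map (mp j) ⊔ U2 S := by
      rw [← E2_eq j]
      exact sup_le_sup_right (Subgroup.map_mono E2_le_GE2) _
    have hd : ∀ u : Sˣ, ∃ r : Rˣ, Units.map j.toMonoidHom r = u := by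
      intro u
      have hu : (u : S) ≠ 0 := by
        intro h0
        have := u.mul_inv
        rw [h0, zero_mul] at this
        exact h.nontrivial this.symm
      have hv : ((u⁻¹ : Sˣ) : S) ≠ 0 := by
        intro h0
        have := u.mul_inv
        rw [h0, mul_zero] at this
        exact h.nontrivial this.symm
      have h1 := h.mul _ _ hu hv
      rw [u.mul_inv, h.d_one] at h1
      obtain ⟨r, hr⟩ := (h.zero_iff (u : S)).1 (by omega)
      obtain ⟨r', hr'⟩ := (h.zero_iff ((u⁻¹ : Sˣ) : S)).1 (by omega)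
      refine ⟨⟨r, r', ?_, ?_⟩, ?_⟩
      · apply h.j_inj
        rw [map_mul, hr, hr', u.mul_inv, map_one]
      · apply h.j_inj
        rw [map_mul, hr, hr', u.inv_mul, map_one]
      · apply Units.ext
        exact hr
    rintro _ ((⟨s, rfl⟩ | ⟨s, rfl⟩) | ⟨⟨u, v⟩, rfl⟩)
    · exact hE (up_mem_E2 s)
    · exact hE (low_mem_E2 s)
    · obtain ⟨r, rfl⟩ := hd u
      obtain ⟨r', rfl⟩ := hd v
      apply Subgroup.mem_sup_left
      refine ⟨dgl r r', Subgroup.subset_closure (Or.inr ⟨(r, r'), rfl⟩), ?_⟩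
      rw [mp_dgl]

theorem E2_iff (hC : ClosedE C) (hM : ∀ (G : Type) [Group G], derivedSeries G 2 = ⊥ → C G)
    (h : DegreeOver j ε d) : C ↥(E2 R) ↔ C ↥(E2 S) := by
  have h1 := main_iff hC hM h (E2 R) up_mem_E2
  rwa [E2_eq j] at h1

theorem GE2_iff (hC : ClosedE C) (hM : ∀ (G : Type) [Group G], derivedSeries G 2 = ⊥ → C G)
    (h : DegreeOver j ε d) : C ↥(GE2 R) ↔ C ↥(GE2 S) := by
  have h1 := main_iff hC hM h (GE2 R) fun r => E2_le_GE2 (up_mem_E2 r)
  rwa [GE2_eq h] at h1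

end main

end Pool.Agent.U919.GE
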