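import Mathlib

/-!
# Trees of cosets from two level functions

Let `A` and `B` be subgroups of a group `Γ` with functions `N`, `M` on `Γ` such that `N` is invariant
under right multiplication with `A`, and `M` under right multiplication with `B`, and such that each
coset of `A` has at most one lower neighbour, and each coset of `B` as well. Then the graph of the
cosets of `A` and `B` in the group generated by `A` and `B` is a tree.
-/

set_option autoImplicit false

namespace Pool.Agent.U919.GE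

/-- a graph with levels such that each vertex except one has exactly one lower neighbour, and
neighbours have different levels, is a tree (helper293, `Pool.Agent.U293.PA`) -/
theorem isTree_of_level {V : Type*} (T : SimpleGraph V) (l : V → ℕ) (r : V)
    (h1 : ∀ u v, T.Adj u v → l u ≠ l v)
    (h2 : ∀ v, v ≠ r → ∃ u, T.Adj v u ∧ l u < l v)
    (h3 : ∀ v u u', T.Adj v u → T.Adj v u' → l u < l v → l u' < l v → u = u') : T.IsTree := by
  classical
  refine ⟨?_, ?_⟩
  · have hr : ∀ n v, l v = n → T.Reachable v r := by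
      intro n
      induction n using Nat.strong_induction_on with
      | _ n ih =>
        intro v hv
        by_cases hvr : v = r
        · rw [hvr]
        · obtain ⟨u, hu, hlt⟩ := h2 v hvr
          exact hu.reachable.trans (ih _ (by omega) u rfl)
    exact { preconnected := fun u v => (hr _ u rfl).trans (hr _ v rfl).symm, nonempty := ⟨r⟩ }
  · intro v c hc
    obtain ⟨w, hw, hmax⟩ := c.support.toFinset.exists_max_image l
      ⟨v, by simp⟩
    have hw' : w ∈ c.support := by simpa using hw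
    have hc' := hc.rotate hw'
    obtain ⟨c', hcc⟩ : ∃ c' : T.Walk w w, c' = c.rotate w hw' := ⟨_, rfl⟩
    rw [← hcc] at hc'
    have hsub : ∀ x ∈ c'.support, l x ≤ l w := by
      intro x hx
      apply hmax
      rw [List.mem_toFinset]
      rw [hcc] at hx
      exact (SimpleGraph.Walk.mem_support_rotate_iff ..).1 hx
    have hn : ¬ c'.Nil := hc'.not_nil
    have a1 := c'.adj_snd hn
    have a2 := c'.adj_penultimate hn
    have l1 : l c'.snd < l w :=
      lt_of_le_of_ne (hsub _ (c'.getVert_mem_support _)) (h1 _ _ a1).symm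
    have l2 : l c'.penultimate < l w :=
      lt_of_le_of_ne (hsub _ (c'.getVert_mem_support _)) (h1 _ _ a2)
    exact hc'.snd_ne_penultimate (h3 _ _ _ a1 a2.symm l1 l2)

variable {Γ : Type} [Group Γ]

/-- the level functions -/
structure Lvl (A B : Subgroup Γ) (N M : Γ → ℕ) : Prop where
  hN : ∀ g, ∀ a ∈ A, N (g * a) = N g
  hM : ∀ g, ∀ b ∈ B, M (g * b) = M g
  uA : ∀ g, ∀ a ∈ A, M g < N g → M (g * a) < N g → a ∈ B
  uB : ∀ g, ∀ b ∈ B, N g ≤ M g → N (g * b) ≤ M g → b ∈ A
  base : ∀ a ∈ A, N a ≤ M a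

/-- the elements which are reduced to the first group -/
inductive Red (A B : Subgroup Γ) (N M : Γ → ℕ) : Bool → Γ → Prop
  | base (g : Γ) : g ∈ A → Red A B N M false g
  | stA (g a : Γ) : a ∈ A → M (g * a) < N g → Red A B N M true (g * a) → Red A B N M false g
  | stB (g b : Γ) : b ∈ B → N (g * b) ≤ M g → Red A B N M false (g * b) → Red A B N M true g

variable {A B : Subgroup Γ} {N M : Γ → ℕ}

theorem redA (h : Lvl A B N M) {g a : Γ} (hg : Red A B N M false g) (ha : a ∈ A) :
    Red A B N M false (g * a) := by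
  cases hg with
  | base _ hg => exact Red.base _ (mul_mem hg ha)
  | stA _ a0 ha0 hlt hr =>
    have e : g * a * (a⁻¹ * a0) = g * a0 := by group
    refine Red.stA _ (a⁻¹ * a0) (mul_mem (inv_mem ha) ha0) ?_ ?_
    · rw [e, h.hN g a ha]
      exact hlt
    · rw [e]
      exact hr

theorem redB (h : Lvl A B N M) {g b : Γ} (hg : Red A B N M true g) (hb : b ∈ B) :
    Red A B N M true (g * b) := by
  cases hg with
  | stB _ b0 hb0 hle hr =>
    have e : g * b * (b⁻¹ * b0) = g * b0 := by group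
    refine Red.stB _ (b⁻¹ * b0) (mul_mem (inv_mem hb) hb0) ?_ ?_
    · rw [e, h.hM g b hb]
      exact hle
    · rw [e]
      exact hr

theorem redFT (h : Lvl A B N M) {g : Γ} (hg : Red A B N M false g) : Red A B N M true g := by
  have hg0 := hg
  by_cases hlt0 : M g < N g
  · cases hg with
    | base _ hg => exact absurd (h.base g hg) (not_le.2 hlt0)
    | stA _ a0 ha0 hlt hr =>
      have hb := h.uA g a0 ha0 hlt0 hlt
      have := redB h hr (inv_mem hb)
      rwa [mul_inv_cancel_right] at this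
  · refine Red.stB _ 1 (one_mem _) ?_ (by rwa [mul_one])
    rw [mul_one]
    exact not_lt.1 hlt0

theorem redTF (h : Lvl A B N M) {g : Γ} (hg : Red A B N M true g) : Red A B N M false g := by
  have hg0 := hg
  by_cases hle0 : N g ≤ M g
  · cases hg with
    | stB _ b0 hb0 hle hr =>
      have ha := h.uB g b0 hb0 hle0 hle
      have := redA h hr (inv_mem ha)
      rwa [mul_inv_cancel_right] at this
  · refine Red.stA _ 1 (one_mem _) ?_ (by rwa [mul_one])
    rw [mul_one]
    exact not_le.1 hle0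

theorem red_all (h : Lvl A B N M) {g : Γ} (hg : g ∈ A ⊔ B) : Red A B N M false g := by
  let S : Subgroup Γ :=
    { carrier := {x | ∀ y, Red A B N M false y ↔ Red A B N M false (y * x)}
      one_mem' := fun y => by rw [mul_one]
      mul_mem' := fun {a b} ha hb y => by
        rw [ha y, hb (y * a), mul_assoc]
      inv_mem' := fun {a} ha y => by
        rw [ha (y * a⁻¹), inv_mul_cancel_right] }
  have hA : A ≤ S := by
    intro a ha y
    refine ⟨fun hy => redA h hy ha, fun hy => ?_⟩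
    have := redA h hy (inv_mem ha)
    rwa [mul_inv_cancel_right] at this
  have hB : B ≤ S := by
    intro b hb y
    refine ⟨fun hy => redTF h (redB h (redFT h hy) hb), fun hy => ?_⟩
    have := redTF h (redB h (redFT h hy) (inv_mem hb))
    rwa [mul_inv_cancel_right] at this
  have h1 : g ∈ S := (sup_le hA hB) hg
  have h2 := (h1 1).1 (Red.base 1 (one_mem _))
  rwa [one_mul] at h2

/-- the group generated by `A` and `B` -/
abbrev GG (A B : Subgroup Γ) : Type := ↥(A ⊔ B)

/-- the vertices of the tree: the cosets of `A` and of `B` -/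
abbrev Vt (A B : Subgroup Γ) : Type :=
  (GG A B ⧸ A.subgroupOf (A ⊔ B)) ⊕ (GG A B ⧸ B.subgroupOf (A ⊔ B))

/-- the vertex `g A` -/
noncomputable def vA (A B : Subgroup Γ) (g : GG A B) : Vt A B := Sum.inl (QuotientGroup.mk g)

/-- the vertex `g B` -/
noncomputable def vB (A B : Subgroup Γ) (g : GG A B) : Vt A B := Sum.inr (QuotientGroup.mk g)

/-- the edges join `g A` and `g B` -/
def tr (A B : Subgroup Γ) : SimpleGraph (Vt A B) where
  Adj u v := ∃ g : GG A B, (u = vA A B g ∧ v = vB A B g) ∨ (u = vB A B g ∧ v = vA A B g)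
  symm := ⟨by
    rintro u v ⟨g, h | h⟩
    · exact ⟨g, Or.inr ⟨h.2, h.1⟩⟩
    · exact ⟨g, Or.inl ⟨h.2, h.1⟩⟩⟩
  loopless := ⟨by
    rintro u ⟨g, h | h⟩
    · have := h.1.symm.trans h.2
      simp [vA, vB] at this
    · have := h.1.symm.trans h.2
      simp [vA, vB] at this⟩

theorem vA_eq {g h : GG A B} : vA A B g = vA A B h ↔ (g : Γ)⁻¹ * h ∈ A := by
  unfold vA
  rw [Sum.inl.injEq, QuotientGroup.eq, Subgroup.mem_subgroupOf]
  rfl

theorem vB_eq {g h : GG A B} : vB A B g = vB A B h ↔ (g : Γ)⁻¹ * h ∈ B := by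
  unfold vB
  rw [Sum.inr.injEq, QuotientGroup.eq, Subgroup.mem_subgroupOf]
  rfl

theorem vA_ne_vB {g h : GG A B} : vA A B g ≠ vB A B h := by simp [vA, vB]

/-- every neighbour of `g A` is `g a B` -/
theorem adjA {g : GG A B} {w : Vt A B} (h : (tr A B).Adj (vA A B g) w) :
    ∃ a : GG A B, (a : Γ) ∈ A ∧ w = vB A B (g * a) := by
  obtain ⟨x, h | h⟩ := h
  · refine ⟨g⁻¹ * x, ?_, ?_⟩
    · exact vA_eq.1 h.1
    · rw [mul_inv_cancel_left]
      exact h.2
  · exact absurd h.1 vA_ne_vB

/-- every neighbour of `g B` is `g b A` -/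
theorem adjB {g : GG A B} {w : Vt A B} (h : (tr A B).Adj (vB A B g) w) :
    ∃ b : GG A B, (b : Γ) ∈ B ∧ w = vA A B (g * b) := by
  obtain ⟨x, h | h⟩ := h
  · exact absurd h.1.symm vA_ne_vB
  · refine ⟨g⁻¹ * x, ?_, ?_⟩
    · exact vB_eq.1 h.1
    · rw [mul_inv_cancel_left]
      exact h.2

/-- the level of a vertex -/
noncomputable def lev (A B : Subgroup Γ) (N M : Γ → ℕ) : Vt A B → ℕ
  | Sum.inl q => 2 * N (q.out : Γ)
  | Sum.inr q => 2 * M (q.out : Γ) + 1

theorem lev_A (h : Lvl A B N M) (g : GG A B) : lev A B N M (vA A B g) = 2 * N (g : Γ) := by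
  have h1 : (g : Γ)⁻¹ * ((QuotientGroup.mk g : GG A B ⧸ A.subgroupOf (A ⊔ B)).out : Γ) ∈ A := by
    have : (QuotientGroup.mk g : GG A B ⧸ A.subgroupOf (A ⊔ B)) = QuotientGroup.mk
        ((QuotientGroup.mk g : GG A B ⧸ A.subgroupOf (A ⊔ B)).out) := (Quotient.out_eq' _).symm
    rw [QuotientGroup.eq, Subgroup.mem_subgroupOf] at this
    exact this
  have h2 := h.hN (g : Γ) _ h1
  rw [mul_inv_cancel_left] at h2
  unfold vA lev
  simp only
  rw [h2]

theorem lev_B (h : Lvl A B N M) (g : GG A B) :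
    lev A B N M (vB A B g) = 2 * M (g : Γ) + 1 := by
  have h1 : (g : Γ)⁻¹ * ((QuotientGroup.mk g : GG A B ⧸ B.subgroupOf (A ⊔ B)).out : Γ) ∈ B := by
    have : (QuotientGroup.mk g : GG A B ⧸ B.subgroupOf (A ⊔ B)) = QuotientGroup.mk
        ((QuotientGroup.mk g : GG A B ⧸ B.subgroupOf (A ⊔ B)).out) := (Quotient.out_eq' _).symm
    rw [QuotientGroup.eq, Subgroup.mem_subgroupOf] at this
    exact this
  have h2 := h.hM (g : Γ) _ h1
  rw [mul_inv_cancel_left] at h2
  unfold vB lev
  simp only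
  rw [h2]

theorem cases_v (u : Vt A B) : (∃ g, u = vA A B g) ∨ ∃ g, u = vB A B g := by
  rcases u with q | q
  · left
    obtain ⟨g, rfl⟩ := QuotientGroup.mk_surjective q
    exact ⟨g, rfl⟩
  · right
    obtain ⟨g, rfl⟩ := QuotientGroup.mk_surjective q
    exact ⟨g, rfl⟩

theorem tr_tree (h : Lvl A B N M) : (tr A B).IsTree := by
  refine isTree_of_level _ (lev A B N M) (vA A B 1) ?_ ?_ ?_
  · rintro u v ⟨g, ⟨rfl, rfl⟩ | ⟨rfl, rfl⟩⟩
    · rw [lev_A h, lev_B h]
      omega
    · rw [lev_A h, lev_B h]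
      omega
  · intro v hv
    rcases cases_v v with ⟨g, rfl⟩ | ⟨g, rfl⟩
    · have hr := red_all h g.2
      cases hr with
      | base _ hg =>
        exfalso
        apply hv
        rw [vA_eq]
        have := inv_mem hg
        simpa using this
      | stA _ a ha hlt _ =>
        have ha' : a ∈ A ⊔ B := Subgroup.mem_sup_left ha
        refine ⟨vB A B (g * ⟨a, ha'⟩), ⟨g * ⟨a, ha'⟩, Or.inl ⟨?_, rfl⟩⟩, ?_⟩
        · rw [vA_eq]
          simpa using ha
        · rw [lev_A h, lev_B h]
          change 2 * M ((g : Γ) * a) + 1 < _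
          omega
    · have hr := redFT h (red_all h g.2)
      cases hr with
      | stB _ b hb hle _ =>
        have hb' : b ∈ A ⊔ B := Subgroup.mem_sup_right hb
        refine ⟨vA A B (g * ⟨b, hb'⟩), ⟨g * ⟨b, hb'⟩, Or.inr ⟨?_, rfl⟩⟩, ?_⟩
        · rw [vB_eq]
          simpa using hb
        · rw [lev_A h, lev_B h]
          change 2 * N ((g : Γ) * b) < _
          omega
  · intro v u u' hu hu' hl hl'
    rcases cases_v v with ⟨g, rfl⟩ | ⟨g, rfl⟩
    · obtain ⟨a, ha, rfl⟩ := adjA hu
      obtain ⟨a', ha', rfl⟩ := adjA hu'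
      rw [lev_A h, lev_B h] at hl hl'
      have h1 : M ((g : Γ) * a) < N (g : Γ) := by
        change 2 * M ((g : Γ) * a) + 1 < _ at hl
        omega
      have h2 : M ((g : Γ) * a') < N (g : Γ) := by
        change 2 * M ((g : Γ) * a') + 1 < _ at hl'
        omega
      have e : (g : Γ) * (a : Γ) * ((a : Γ)⁻¹ * (a' : Γ)) = (g : Γ) * (a' : Γ) := by group
      have h4 := h.uA ((g : Γ) * a) ((a : Γ)⁻¹ * a') (mul_mem (inv_mem ha) ha')
        (by rw [h.hN _ _ ha]; exact h1) (by rw [e, h.hN _ _ ha]; exact h2)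
      rw [vB_eq]
      have e : ((g * a : GG A B) : Γ)⁻¹ * ((g * a' : GG A B) : Γ) =
          (a : Γ)⁻¹ * (a' : Γ) := by
        rw [Subgroup.coe_mul, Subgroup.coe_mul]
        group
      rw [e]
      exact h4
    · obtain ⟨b, hb, rfl⟩ := adjB hu
      obtain ⟨b', hb', rfl⟩ := adjB hu'
      rw [lev_A h, lev_B h] at hl hl'
      have h1 : N ((g : Γ) * (b : Γ)) ≤ M (g : Γ) := by
        change 2 * N ((g : Γ) * (b : Γ)) < _ at hl
        omega
      have h2 : N ((g : Γ) * (b' : Γ)) ≤ M (g : Γ) := by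
        change 2 * N ((g : Γ) * (b' : Γ)) < _ at hl'
        omega
      rw [vA_eq]
      have e : ((g * b : GG A B) : Γ)⁻¹ * ((g * b' : GG A B) : Γ) =
          (b : Γ)⁻¹ * (b' : Γ) := by
        rw [Subgroup.coe_mul, Subgroup.coe_mul]
        group
      rw [e]
      have e : (g : Γ) * (b : Γ) * ((b : Γ)⁻¹ * (b' : Γ)) = (g : Γ) * (b' : Γ) := by group
      exact h.uB ((g : Γ) * b) ((b : Γ)⁻¹ * b') (mul_mem (inv_mem hb) hb')
        (by rw [h.hM _ _ hb]; exact h1) (by rw [e, h.hM _ _ hb]; exact h2)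

theorem tr_smul (g : GG A B) (u v : Vt A B) (h : (tr A B).Adj u v) :
    (tr A B).Adj (g • u) (g • v) := by
  obtain ⟨x, ⟨rfl, rfl⟩ | ⟨rfl, rfl⟩⟩ := h
  · exact ⟨g * x, Or.inl ⟨rfl, rfl⟩⟩
  · exact ⟨g * x, Or.inr ⟨rfl, rfl⟩⟩

theorem smul_vA (g x : GG A B) : g • vA A B x = vA A B (g * x) := rfl

theorem smul_vB (g x : GG A B) : g • vB A B x = vB A B (g * x) := rfl

end Pool.Agent.U919.GE
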